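import Pool.Agent.W314.BA.Stm

set_option autoImplicit false

open MeasureTheory Set Filter Topology Real
open scoped ENNReal NNReal

namespace Pool.Agent.W658.BA

open Pool.Agent.W314.BA

theorem main : FundStmt := by
  intro Γ hfin ⟨R, hR⟩
  haveI : PolishSpace (Matrix (Fin 2) (Fin 2) ℝ) :=
    inferInstanceAs (PolishSpace (Fin 2 → Fin 2 → ℝ))
  haveI : PolishSpace G := Pool.Agent.W745.closedEmb.polishSpace
  obtain ⟨κ, hκ⟩ := exists_measurableEmbedding_real G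
  have hcount : (Γ : Set G).Countable := by
    have h1 : (Γ : Set G) ⊆ ⋃ n : ℕ, {γ : G | γ ∈ Γ ∧ hh γ ≤ n} := by
      intro γ hγ
      obtain ⟨n, hn⟩ := exists_nat_ge (hh γ)
      exact mem_iUnion.2 ⟨n, hγ, hn⟩
    exact (countable_iUnion fun n : ℕ => (hfin n).countable).mono h1
  refine ⟨{g | hh g ≤ R ∧ ∀ γ ∈ (Γ : Set G), hh (g * γ) ≤ R → κ g ≤ κ (g * γ)}, ?_,
    ⟨R, fun g hg => hg.1⟩, ?_⟩
  · have hmm : ∀ γ : G, Measurable (fun g : G => g * γ) := fun γ =>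
      (continuous_mul_const γ).measurable
    have h2 : {g : G | hh g ≤ R ∧ ∀ γ ∈ (Γ : Set G), hh (g * γ) ≤ R → κ g ≤ κ (g * γ)} =
        {g : G | hh g ≤ R} ∩ ⋂ γ ∈ (Γ : Set G),
          ({g : G | hh (g * γ) ≤ R}ᶜ ∪ {g : G | κ g ≤ κ (g * γ)}) := by
      ext g
      simp only [mem_setOf_eq, mem_inter_iff, mem_iInter, mem_union, mem_compl_iff]
      refine and_congr_right fun _ => forall_congr' fun γ => forall_congr' fun _ => ?_
      tauto
    rw [h2]
    refine (measurableSet_le hh_measurable measurable_const).inter ?_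
    refine MeasurableSet.biInter hcount fun γ _ => MeasurableSet.union ?_ ?_
    · exact (measurableSet_le (hh_measurable.comp (hmm γ)) measurable_const).compl
    · exact measurableSet_le hκ.measurable (hκ.measurable.comp (hmm γ))
  · intro g
    have hSfin : {γ : G | γ ∈ Γ ∧ hh (g * γ) ≤ R}.Finite := by
      refine (hfin (2 * hh g * R)).subset ?_
      rintro γ ⟨h1, h2⟩
      refine ⟨h1, ?_⟩
      have h3 := hh_mul_le g⁻¹ (g * γ)
      rw [inv_mul_cancel_left, hh_inv] at h3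
      refine h3.trans (mul_le_mul_of_nonneg_left h2 ?_)
      have := one_le_hh g
      linarith
    have hSne : {γ : G | γ ∈ Γ ∧ hh (g * γ) ≤ R}.Nonempty := by
      obtain ⟨γ, h1, h2⟩ := hR g
      exact ⟨γ, h1, h2⟩
    obtain ⟨γ₀, h0, hmin⟩ := Set.exists_min_image _ (fun γ => κ (g * γ)) hSfin hSne
    refine ⟨⟨γ₀, h0.1⟩, ⟨h0.2, ?_⟩, ?_⟩
    · intro γ hγ h1
      have h2 := hmin (γ₀ * γ) ⟨Γ.mul_mem h0.1 hγ, by rw [← mul_assoc]; exact h1⟩
      rw [← mul_assoc] at h2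
      exact h2
    · rintro ⟨γ₁, h1⟩ ⟨h2, h3⟩
      have h4 := hmin γ₁ ⟨h1, h2⟩
      have h5 := h3 (γ₁⁻¹ * γ₀) (Γ.mul_mem (Γ.inv_mem h1) h0.1)
        (by
          show hh (g * γ₁ * (γ₁⁻¹ * γ₀)) ≤ R
          rw [mul_assoc, mul_inv_cancel_left]
          exact h0.2)
      change κ (g * γ₁) ≤ κ (g * γ₁ * (γ₁⁻¹ * γ₀)) at h5
      rw [mul_assoc, mul_inv_cancel_left] at h5
      have h6 := hκ.injective (le_antisymm h5 h4)
      exact Subtype.ext (mul_left_cancel h6)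

end Pool.Agent.W658.BA
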